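import Mathlib
import Pool.Agent.W484.AA.Mixed

/-!
# Products of eigenvectors of odd degree in a graded commutative algebra
-/

set_option autoImplicit false

namespace Pool.Agent.W484.HS

open Polynomial Module Pool.Agent.W484.AA Pool.Agent.W484.BB Pool.Agent.W521.Frob
  Pool.Agent.W521.Count Pool.Agent.W521.Bad Pool.Agent.W521.Descent Pool.Agent.W521.Density
  Pool.Agent.W521.Criterion

section abs

variable {K : Type*} [Field K] {R : Type*} [Ring R] [Algebra K R]

theorem prod_perm_anti {L L' : List R} (h : L.Perm L') :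
    (∀ a ∈ L, ∀ b ∈ L, a * b = -(b * a)) → ∃ c : K, L.prod = c • L'.prod := by
  induction h with
  | nil => intro _; exact ⟨1, by simp⟩
  | cons a _ ih =>
    intro h
    obtain ⟨c, hc⟩ := ih fun x hx y hy => h x (List.mem_cons_of_mem _ hx) y
      (List.mem_cons_of_mem _ hy)
    exact ⟨c, by rw [List.prod_cons, List.prod_cons, hc, mul_smul_comm]⟩
  | swap a b l =>
    intro h
    refine ⟨-1, ?_⟩
    rw [List.prod_cons, List.prod_cons, List.prod_cons, List.prod_cons, ← mul_assoc, ← mul_assoc,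
      h b (by simp) a (by simp), neg_one_smul, neg_mul]
  | trans h1 _ ih1 ih2 =>
    intro h
    obtain ⟨c, hc⟩ := ih1 h
    obtain ⟨d, hd⟩ := ih2 fun x hx y hy => h x (h1.mem_iff.2 hx) y (h1.mem_iff.2 hy)
    exact ⟨c * d, by rw [hc, hd, smul_smul]⟩

variable {X : Type*} (G : R →ₐ[K] R) (val : X → K)

theorem map_list_prod (L : List (R × X)) (hL : ∀ e ∈ L, G e.1 = val e.2 • e.1) :
    G (L.map Prod.fst).prod = (L.map (fun e => val e.2)).prod • (L.map Prod.fst).prod := by
  induction L with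
  | nil => simp
  | cons e L ih =>
    rw [List.map_cons, List.prod_cons, map_mul, hL e (by simp),
      ih (fun e' he' => hL e' (List.mem_cons_of_mem _ he')), List.map_cons, List.prod_cons,
      smul_mul_smul_comm]

/-- The condition on relations, over a general field. -/
def ExactPairK {X : Type*} {K : Type*} [Field K] (val : X → K) (Q ρ : K) : Prop :=
  ∀ (n : ℕ) (c : ℤ) (s : ℕ), 0 < s → 0 < n → ∀ ys : List X, ys.length = n →
    ((ys.map val).prod * ρ) ^ s = (Q ^ c) ^ s →
      ¬ ys.Pairwise (fun y y' => val y * val y' ≠ Q)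

/-- **The induction.** -/
theorem list_mem (Q ρ : K) (hQ : Q ≠ 0)
    (hpair : ExactPairK val Q ρ) (M : Submodule K R) (h1 : (1 : R) ∈ M)
    (hmul : ∀ a ∈ M, ∀ b ∈ M, a * b ∈ M) (U : Set R)
    (hanti : ∀ a ∈ U, ∀ b ∈ U, a * b = -(b * a))
    (h2 : ∀ a ∈ U, ∀ b ∈ U, ∀ x y, G a = val x • a → G b = val y • b → val x * val y = Q →
      a * b ∈ M) :
    ∀ (n : ℕ) (c : ℤ) (s : ℕ), 0 < s → ∀ L : List (R × X), L.length = n →
      (∀ e ∈ L, e.1 ∈ U ∧ G e.1 = val e.2 • e.1) →
      ((L.map (fun e => val e.2)).prod * ρ) ^ s = (Q ^ c) ^ s →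
      (L.map Prod.fst).prod ∈ M := by
  intro n
  induction n using Nat.strong_induction_on with
  | _ n ih =>
    intro c s hs L hlen hL hrel
    rcases Nat.eq_zero_or_pos n with hn | hn
    · subst hn
      have hL0 : L = [] := List.length_eq_zero_iff.1 hlen
      subst hL0
      simpa using h1
    · have h3 := hpair n c s hs hn (L.map Prod.snd) (by rw [List.length_map, hlen]) (by
        rw [List.map_map]
        exact hrel)
      rw [List.pairwise_map] at h3
      obtain ⟨e, e', L', hperm, hgood⟩ := exists_of_not_pairwise _ L h3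
      rw [not_not] at hgood
      have heL : e ∈ L := hperm.mem_iff.2 (by simp)
      have heL' : e' ∈ L := hperm.mem_iff.2 (by simp)
      have hlen' : n = L'.length + 2 := by
        have h2 := hperm.length_eq
        rw [List.length_cons, List.length_cons, hlen] at h2
        omega
      obtain ⟨b', hb'⟩ := prod_perm_anti (K := K) (hperm.map Prod.fst) (by
        intro a ha b hb
        rw [List.mem_map] at ha hb
        obtain ⟨e₁, he₁, rfl⟩ := ha
        obtain ⟨e₂, he₂, rfl⟩ := hb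
        exact hanti _ (hL e₁ he₁).1 _ (hL e₂ he₂).1)
      have h3 : (L.map (fun e => val e.2)).prod = Q * (L'.map (fun e => val e.2)).prod := by
        rw [(hperm.map (fun e => val e.2)).prod_eq, List.map_cons, List.prod_cons,
          List.map_cons, List.prod_cons, ← mul_assoc, hgood]
      have h5 := ih L'.length (by omega) (c - 1) s hs L' rfl
        (fun e₁ he₁ => hL e₁ (hperm.mem_iff.2
          (List.mem_cons_of_mem _ (List.mem_cons_of_mem _ he₁)))) (by
        have h6 : Q ^ c = Q * Q ^ (c - 1) := by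
          rw [← zpow_one_add₀ hQ]
          congr 1
          ring
        rw [h3, h6, mul_assoc, mul_pow, mul_pow Q] at hrel
        exact mul_left_cancel₀ (pow_ne_zero _ hQ) hrel)
      rw [hb']
      refine Submodule.smul_mem _ _ ?_
      rw [List.map_cons, List.prod_cons, List.map_cons, List.prod_cons, ← mul_assoc]
      exact hmul _ (h2 _ (hL e heL).1 _ (hL e' heL').1 _ _ (hL e heL).2 (hL e' heL').2 hgood) _ h5

/-- A basis of products of eigenvectors. -/
theorem exists_list_basis [Module.Finite K R] (U : Submodule K R)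
    (hU : Submodule.span K {v : R | v ∈ U ∧ ∃ x, G v = val x • v} = U)
    (hgen : Algebra.adjoin K (U : Set R) = ⊤) :
    ∃ (r : ℕ) (b : Basis (Fin r) K R), ∀ t, ∃ L : List (R × X),
      (∀ e ∈ L, e.1 ∈ U ∧ G e.1 = val e.2 • e.1) ∧ b t = (L.map Prod.fst).prod := by
  classical
  set T : Set R := {y | ∃ L : List (R × X), (∀ e ∈ L, e.1 ∈ U ∧ G e.1 = val e.2 • e.1) ∧
    y = (L.map Prod.fst).prod} with hT
  have hspan : Submodule.span K T = ⊤ := by
    rw [eq_top_iff]
    have h1 : Algebra.adjoin K {v : R | v ∈ U ∧ ∃ x, G v = val x • v} = ⊤ := by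
      rw [← Algebra.adjoin_span (R := K) (s := {v : R | v ∈ U ∧ ∃ x, G v = val x • v}), hU]
      exact hgen
    have h2 := Algebra.adjoin_eq_span K {v : R | v ∈ U ∧ ∃ x, G v = val x • v}
    rw [h1] at h2
    intro y _
    have h3 : y ∈ Submodule.span K
        (Submonoid.closure {v : R | v ∈ U ∧ ∃ x, G v = val x • v} : Set R) := by
      rw [← h2]
      exact Submodule.mem_top
    refine Submodule.span_mono ?_ h3
    intro z hz
    obtain ⟨l, hl, rfl⟩ := Submonoid.exists_list_of_mem_closure hz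
    have h4 : ∀ v ∈ l, ∃ x, v ∈ U ∧ G v = val x • v := fun v hv =>
      ⟨(hl v hv).2.choose, (hl v hv).1, (hl v hv).2.choose_spec⟩
    clear hl hz
    induction l with
    | nil => exact ⟨[], by simp, by simp⟩
    | cons v l ih =>
      obtain ⟨x, hx⟩ := h4 v (by simp)
      obtain ⟨L, hL, hL'⟩ := ih fun w hw => h4 w (List.mem_cons_of_mem _ hw)
      refine ⟨(v, x) :: L, ?_, ?_⟩
      · intro e he
        rcases List.mem_cons.1 he with rfl | he
        · exact hx
        · exact hL e he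
      · rw [List.prod_cons, List.map_cons, List.prod_cons, hL']
  obtain ⟨S, hS, hSspan, hSli⟩ := exists_linearIndependent K T
  have hfin : S.Finite := hSli.setFinite
  have := hfin.fintype
  rw [hspan] at hSspan
  let b0 : Basis S K R := Basis.mk hSli (by rw [Subtype.range_coe, hSspan])
  let e := Fintype.equivFin S
  refine ⟨Fintype.card S, b0.reindex e, fun t => ?_⟩
  rw [Basis.reindex_apply, Basis.mk_apply]
  exact hS (e.symm t).2

end abs

/-- **The relations.** -/
theorem exactPair_root {I : Type} [Finite I] (g : I → ℕ)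
    {q : ℕ} (hq : q ≠ 0) (r : ℕ) (hr : ∀ i, r < g i)
    (x : (Σ i, Fin (g i)) → ℤ) (hx : Pool.Agent.W521.Bad.Good g q x)
    (s : ℕ) (hs : 0 < s) (χ : ℚ[X]) (hχ : χ ≠ 0) (hrank : RankLE q r {ρ : ℂ | aeval ρ χ = 0})
    (ρ : ℂ) (hρ : aeval ρ χ = 0) :
    ExactPair (fun z : {z : ℂ // ∃ i, aeval z (weil q (polys g x i)) = 0} => (z : ℂ) ^ s)
      ((q : ℂ) ^ s) ρ := by
  refine exactPair_of_good g hq r hr x hx s hs (H := ℂ) (ρ • LinearMap.id) ⟨χ, hχ, ?_, hrank⟩ ρ ?_
  · intro μ hμ
    obtain ⟨v, hv⟩ := hμ.exists_hasEigenvector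
    have h1 := hv.apply_eq_smul
    rw [LinearMap.smul_apply, LinearMap.id_apply, smul_eq_mul, smul_eq_mul] at h1
    rw [← mul_right_cancel₀ hv.2 h1]
    exact hρ
  · refine Module.End.hasEigenvalue_of_hasEigenvector (x := (1 : ℂ)) ⟨?_, one_ne_zero⟩
    rw [Module.End.mem_eigenspace_iff]
    simp

/-- The relations for a field of characteristic zero. -/
theorem exactPair_field {I : Type} [Finite I] (g : I → ℕ)
    {q : ℕ} (hq : q ≠ 0) (r : ℕ) (hr : ∀ i, r < g i)
    (x : (Σ i, Fin (g i)) → ℤ) (hx : Pool.Agent.W521.Bad.Good g q x)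
    (s : ℕ) (hs : 0 < s) (χ : ℚ[X]) (hχ : χ ≠ 0) (hrank : RankLE q r {ρ : ℂ | aeval ρ χ = 0})
    {K : Type*} [Field K] [CharZero K] (ρ : K) (hρ : aeval ρ χ = 0) :
    ExactPairK (fun z : {z : K // ∃ i, aeval z (weil q (polys g x i)) = 0} => (z : K) ^ s)
      ((q : K) ^ s) ρ := by
  classical
  have hmem : ∀ z : K, (∃ p : ℚ[X], p ≠ 0 ∧ aeval z p = 0) → z ∈ algebraicClosure ℚ K := by
    rintro z ⟨p, hp, hz⟩
    rw [mem_algebraicClosure_iff]
    exact ⟨p, hp, hz⟩
  have halg : Algebra.IsAlgebraic ℚ (algebraicClosure ℚ K) := algebraicClosure.isAlgebraic ℚ K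
  let j : algebraicClosure ℚ K →ₐ[ℚ] ℂ := IsAlgClosed.lift
  have hρm := hmem ρ ⟨χ, hχ, hρ⟩
  have hρj : aeval (j ⟨ρ, hρm⟩) χ = 0 := by
    rw [Polynomial.aeval_algHom_apply]
    have h1 : aeval (⟨ρ, hρm⟩ : algebraicClosure ℚ K) χ = 0 := by
      apply (algebraMap (algebraicClosure ℚ K) K).injective
      rw [← Polynomial.aeval_algebraMap_apply, map_zero]
      exact hρ
    rw [h1, map_zero]
  have h0 := exactPair_root g hq r hr x hx s hs χ hχ hrank _ hρj
  have hzm : ∀ z : {z : K // ∃ i, aeval z (weil q (polys g x i)) = 0},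
      (z : K) ∈ algebraicClosure ℚ K := by
    rintro ⟨z, i, hi⟩
    refine hmem z ⟨(weil q (polys g x i)).map (algebraMap ℤ ℚ), ?_, ?_⟩
    · exact ((weil_monic q (mkPoly_monic (g i) (fun k => x ⟨i, k⟩))).map _).ne_zero
    · rw [aeval_map_algebraMap]
      exact hi
  have hz : ∀ z : {z : K // ∃ i, aeval z (weil q (polys g x i)) = 0},
      ∃ i, aeval (j ⟨z, hzm z⟩) (weil q (polys g x i)) = 0 := by
    rintro ⟨z, i, hi⟩
    refine ⟨i, ?_⟩
    have h2 := Polynomial.hom_eval₂ (weil q (polys g x i)) (algebraMap ℤ _)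
      (j : algebraicClosure ℚ K →+* ℂ) ⟨z, hzm ⟨z, i, hi⟩⟩
    rw [RingHom.ext_int ((j : algebraicClosure ℚ K →+* ℂ).comp (algebraMap ℤ _))
      (algebraMap ℤ ℂ)] at h2
    have h3 : eval₂ (algebraMap ℤ (algebraicClosure ℚ K)) (⟨z, hzm ⟨z, i, hi⟩⟩ :
        algebraicClosure ℚ K) (weil q (polys g x i)) = 0 := by
      apply (algebraMap (algebraicClosure ℚ K) K).injective
      rw [map_zero, Polynomial.hom_eval₂, RingHom.ext_int ((algebraMap (algebraicClosure ℚ K)
        K).comp (algebraMap ℤ _)) (algebraMap ℤ K)]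
      exact hi
    rw [h3, map_zero] at h2
    exact h2.symm
  intro n c N hN hn ys hlen hrel hpw
  let φ : {z : K // ∃ i, aeval z (weil q (polys g x i)) = 0} →
      {z : ℂ // ∃ i, aeval z (weil q (polys g x i)) = 0} := fun z => ⟨j ⟨z, hzm z⟩, hz z⟩
  have hrel0 : ((ys.map (fun z : {z : K // ∃ i, aeval z (weil q (polys g x i)) = 0} =>
      (⟨z, hzm z⟩ : algebraicClosure ℚ K) ^ s)).prod * ⟨ρ, hρm⟩) ^ N = (((q : algebraicClosure ℚ K) ^ s) ^ c) ^ N := by
    apply (algebraMap (algebraicClosure ℚ K) K).injective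
    rw [map_pow, map_mul, _root_.map_list_prod, List.map_map, map_pow, map_zpow₀, map_pow,
      map_natCast]
    exact hrel
  refine h0 n c N hN hn (ys.map φ) (by rw [List.length_map, hlen]) ?_ ?_
  · have h4 := congrArg j hrel0
    rw [map_pow, map_mul, _root_.map_list_prod j, List.map_map, map_pow, map_zpow₀, map_pow,
      map_natCast] at h4
    rw [List.map_map, ← h4]
    congr 4
    funext z
    change (j ⟨z, hzm z⟩) ^ s = j (⟨z, hzm z⟩ ^ s)
    rw [map_pow]
  · rw [List.pairwise_map]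
    refine hpw.imp ?_
    intro a b hab h5
    apply hab
    change (j ⟨a, hzm a⟩) ^ s * (j ⟨b, hzm b⟩) ^ s = (q : ℂ) ^ s at h5
    have h6 : (⟨a, hzm a⟩ : algebraicClosure ℚ K) ^ s * ⟨b, hzm b⟩ ^ s =
        (q : algebraicClosure ℚ K) ^ s := by
      apply (j : algebraicClosure ℚ K →+* ℂ).injective
      rw [map_mul, map_pow, map_pow, map_pow, map_natCast]
      exact h5
    have h7 := congrArg (algebraMap (algebraicClosure ℚ K) K) h6
    rw [map_mul, map_pow, map_pow, map_pow, map_natCast] at h7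
    exact h7

end Pool.Agent.W484.HS
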