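import Mathlib
import Pool.Agent.W484.HS.Abs
import Pool.Agent.W552.FrobMain

/-!
# Algebraic classes on a product with a variety whose cohomology is generated in degree one
-/

set_option autoImplicit false

open CategoryTheory AlgebraicGeometry

universe u v

namespace Pool.Agent.W484.HS

open Polynomial Module Pool.Agent.W484.AA Pool.Agent.W521.Frob
  Pool.Agent.W521.Count Pool.Agent.W521.Bad Pool.Agent.W521.Descent Pool.Agent.W521.Density
  Pool.Agent.H914 Pool.Agent.H914.VarClass Pool.Agent.H914.VarClass.Obj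
  Pool.Agent.H914.WeilCohomology Pool.Agent.H281R3.HT Pool.Agent.W552

variable {k : Type u} [Field k] {𝒱 : VarClass k} {ops : CycleOps 𝒱}
  {W : WeilCohomology.{u, v} ops} {X Y : 𝒱.Obj}

theorem algSpan_eq : algSpan W X = Submodule.span W.K {x | AS W X x} := by
  apply le_antisymm
  · refine Submodule.span_mono ?_
    intro x hx
    obtain ⟨j, hj⟩ := Set.mem_iUnion.1 hx
    exact AS.of hj
  · refine Submodule.span_le.2 ?_
    intro x hx
    refine AS.ind (p := fun x => x ∈ algSpan W X) ?_ ?_ hx
    · intro j x hx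
      exact Submodule.subset_span (Set.mem_iUnion.2 ⟨j, hx⟩)
    · intro a b ha hb
      exact Submodule.add_mem _ ha hb

theorem one_mem_algSpan : (1 : W.H X) ∈ algSpan W X := by
  rw [algSpan_eq]
  exact Submodule.subset_span AS.one

theorem mul_mem_algSpan {a b : W.H X} (ha : a ∈ algSpan W X) (hb : b ∈ algSpan W X) :
    a * b ∈ algSpan W X := by
  rw [algSpan_eq] at *
  have h1 : Submodule.span W.K {x | AS W X x} ≤
      (Submodule.span W.K {x | AS W X x}).comap (LinearMap.mulRight W.K b) := by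
    refine Submodule.span_le.2 ?_
    intro x hx
    have h2 : Submodule.span W.K {x | AS W X x} ≤
        (Submodule.span W.K {x | AS W X x}).comap (LinearMap.mulLeft W.K x) := by
      refine Submodule.span_le.2 ?_
      intro y hy
      exact Submodule.subset_span (AS.mul hx hy)
    exact h2 hb
  exact h1 ha

/-- The classes in the span of the products of algebraic classes on `X` with classes on `Y`. -/
noncomputable def mixSpan (W : WeilCohomology.{u, v} ops) (X Y : 𝒱.Obj) : Submodule W.K (W.H (X.prod Y)) :=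
  Submodule.span W.K {c | ∃ a y, AS W X a ∧ c = ext W a y}

theorem ext_mem_mixSpan {a : W.H X} (ha : a ∈ algSpan W X) (y : W.H Y) :
    ext W a y ∈ mixSpan W X Y := by
  rw [algSpan_eq] at ha
  have h1 : Submodule.span W.K {x | AS W X x} ≤ (mixSpan W X Y).comap
      ((LinearMap.mulRight W.K (W.map (snd X Y) y)) ∘ₗ (W.map (fst X Y)).toLinearMap) := by
    refine Submodule.span_le.2 ?_
    intro x hx
    exact Submodule.subset_span ⟨x, y, hx, rfl⟩
  exact h1 ha

/-- The Kunneth components with respect to a basis. -/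
theorem exists_comp {r : ℕ} (b : Basis (Fin r) W.K (W.H X)) :
    ∃ e : W.H (X.prod Y) ≃ₗ[W.K] (Fin r →₀ W.H Y),
      (∀ c, c = ∑ t, ext W (b t) (e c t)) ∧ ∀ t y, e (ext W (b t) y) = Finsupp.single t y := by
  classical
  let e1 : TensorProduct W.K (W.H X) (W.H Y) ≃ₗ[W.K] W.H (X.prod Y) :=
    LinearEquiv.ofBijective _ (W.kunneth X Y)
  let e2 := TensorProduct.equivFinsuppOfBasisLeft (N := W.H Y) b
  have he1 : ∀ a y, e1 (a ⊗ₜ y) = ext W a y := by
    intro a y
    rfl
  have h2 : ∀ t y, e2 (b t ⊗ₜ y) = Finsupp.single t y := by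
    intro t y
    refine Finsupp.ext fun j => ?_
    rw [TensorProduct.equivFinsuppOfBasisLeft_apply_tmul_apply, Basis.repr_self,
      Finsupp.single_apply, Finsupp.single_apply]
    split_ifs with h
    · rw [one_smul]
    · rw [zero_smul]
  refine ⟨e1.symm.trans e2, ?_, ?_⟩
  · intro c
    have h1 : ∀ f : Fin r →₀ W.H Y, e1 (e2.symm f) = ∑ t, ext W (b t) (f t) := by
      intro f
      have h3 : f = ∑ t, Finsupp.single t (f t) := (Finsupp.univ_sum_single f).symm
      have h4 : e2.symm f = ∑ t, (b t ⊗ₜ f t) := by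
        rw [LinearEquiv.symm_apply_eq, map_sum]
        rw [Finset.sum_congr rfl fun t _ => h2 t (f t)]
        exact h3
      rw [h4, map_sum]
      exact Finset.sum_congr rfl fun t _ => he1 _ _
    have h5 := h1 (e2 (e1.symm c))
    rw [LinearEquiv.symm_apply_apply, LinearEquiv.apply_symm_apply] at h5
    exact h5
  · intro t y
    rw [LinearEquiv.trans_apply, ← he1, LinearEquiv.symm_apply_apply, h2]

theorem iter_ext (f : X ⟶ X) (g : Y ⟶ Y) (α : W.K) (a : W.H X) (ha : W.map f a = α • a)
    (y : W.H Y) (N : ℕ) : (W.map (pairMap f g))^[N] (ext W a y) =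
      ext W a (α ^ N • ((W.map g).toLinearMap ^ N) y) := by
  induction N with
  | zero => simp
  | succ N ih =>
    rw [Function.iterate_succ_apply', ih]
    have h1 := map_pairMap (W := W) f g a (α ^ N • ((W.map g).toLinearMap ^ N) y)
    rw [H281R3.HT.ext, h1, ha, H281R3.HT.ext, map_smul, map_smul, map_smul, pow_succ' (W.map g).toLinearMap,
      Module.End.mul_apply, smul_mul_smul_comm, map_smul (W.map (snd X Y)), mul_smul_comm,
      pow_succ' α]
    rfl

theorem iter_linear (f : X ⟶ X) (N : ℕ) (c : W.H X) :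
    (W.map f)^[N] c = ((W.map f).toLinearMap ^ N) c := by
  rw [Module.End.pow_apply]
  rfl

/-- **The classes of a given Frobenius eigenvalue on the product.** -/
theorem mem_mixSpan [IsAlgClosed W.K] (f : X ⟶ X) (g : Y ⟶ Y) {Z : Type*}
    (val : Z → W.K) (Q : W.K) (hQ : Q ≠ 0)
    (hgen : Algebra.adjoin W.K (W.gr X 1 : Set (W.H X)) = ⊤)
    (heig : Submodule.span W.K {v : W.H X | v ∈ W.gr X 1 ∧ ∃ x, W.map f v = val x • v} = W.gr X 1)
    (hdiv : ∀ c ∈ W.gr X 2, W.map f c = Q • c → c ∈ algSpan W X)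
    (hpair : ∀ ρ, Module.End.HasEigenvalue (W.map g).toLinearMap ρ →
      ExactPairK val Q ρ)
    (N i : ℕ) (hN : 0 < N) (c : W.H (X.prod Y))
    (hc : (W.map (pairMap f g))^[N] c = (Q ^ i) ^ N • c) : c ∈ mixSpan W X Y := by
  classical
  obtain ⟨r, b, hb⟩ := exists_list_basis (W.map f) val (W.gr X 1) heig hgen
  obtain ⟨e, he1, he2⟩ := exists_comp (Y := Y) b
  choose L hL hLb using hb
  have hα : ∀ t, W.map f (b t) = ((L t).map (fun e => val e.2)).prod • b t := by
    intro t
    rw [hLb]
    exact Pool.Agent.W484.HS.map_list_prod (W.map f) val (L t) fun e he => (hL t e he).2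
  set α : Fin r → W.K := fun t => ((L t).map (fun e => val e.2)).prod with hαdef
  set T := (W.map g).toLinearMap with hT
  -- the components are eigenvectors
  have hcomp : ∀ t, α t ^ N • (T ^ N) (e c t) = (Q ^ i) ^ N • e c t := by
    have h1 : e ((W.map (pairMap f g))^[N] c) = ∑ t, Finsupp.single t (α t ^ N • (T ^ N) (e c t)) := by
      conv_lhs => rw [he1 c]
      rw [iter_linear, map_sum, map_sum]
      refine Finset.sum_congr rfl fun t _ => ?_
      rw [← iter_linear, iter_ext f g (α t) (b t) (hα t), he2]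
    intro t
    have h2 := congrArg (fun w => w t) h1
    beta_reduce at h2
    rw [hc, map_smul, Finsupp.smul_apply, Finsupp.finsetSum_apply, Finset.sum_eq_single t,
      Finsupp.single_eq_same] at h2
    · exact h2.symm
    · intro t' _ ht'
      exact Finsupp.single_eq_of_ne ht'.symm
    · intro h
      exact absurd (Finset.mem_univ _) h
  rw [he1 c]
  refine Submodule.sum_mem _ fun t _ => ?_
  by_cases ht : e c t = 0
  · rw [ht]
    have h1 : ext W (b t) (0 : W.H Y) = 0 := by rw [H281R3.HT.ext, map_zero, mul_zero]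
    rw [h1]
    exact Submodule.zero_mem _
  refine ext_mem_mixSpan ?_ _
  have hQi : (Q ^ i) ^ N ≠ 0 := pow_ne_zero _ (pow_ne_zero _ hQ)
  have hα0 : α t ^ N ≠ 0 := by
    intro h0
    have h2 := hcomp t
    rw [h0, zero_smul] at h2
    rcases smul_eq_zero.1 h2.symm with h4 | h4
    · exact hQi h4
    · exact ht h4
  have h2 : (T ^ N) (e c t) = ((Q ^ i) ^ N / α t ^ N) • e c t := by
    have h3 := congrArg (fun z => (α t ^ N)⁻¹ • z) (hcomp t)
    simp only [smul_smul] at h3
    rw [inv_mul_cancel₀ hα0, one_smul] at h3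
    rw [h3, div_eq_inv_mul]
  have h3 : Module.End.HasEigenvalue (T ^ N) ((Q ^ i) ^ N / α t ^ N) :=
    Module.End.hasEigenvalue_of_hasEigenvector ⟨Module.End.mem_eigenspace_iff.2 h2, ht⟩
  have h4 := Module.End.hasEigenvalue_iff_mem_spectrum.1 h3
  rw [spectrum.map_pow_of_pos T hN] at h4
  obtain ⟨ρ, hρ, hρN⟩ := h4
  have hρe : Module.End.HasEigenvalue T ρ := Module.End.hasEigenvalue_iff_mem_spectrum.2 hρ
  have hρN : ρ ^ N = (Q ^ i) ^ N / α t ^ N := hρN
  rw [hLb t]
  refine list_mem (W.map f) val Q ρ hQ (hpair ρ hρe) (algSpan W X) one_mem_algSpan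
    (fun a ha b hb => mul_mem_algSpan ha hb) (W.gr X 1 : Set (W.H X)) ?_ ?_ (L t).length
    (i : ℤ) N hN (L t) rfl (hL t) ?_
  · intro a ha b hb
    rw [W.comm ha hb]
    simp
  · intro a ha b hb x y hx hy hxy
    refine hdiv _ (W.mul_mem ha hb) ?_
    rw [map_mul, hx, hy, smul_mul_smul_comm, hxy]
  · rw [mul_pow, hρN, zpow_natCast]
    exact mul_div_cancel₀ _ hα0

end Pool.Agent.W484.HS
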