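import Mathlib
import Pool.Agent.W484.HS.Cyc

/-!
# Positivity on the product
-/

set_option autoImplicit false

open CategoryTheory AlgebraicGeometry

universe u v

namespace Pool.Agent.W484.HS

open Module Pool.Agent.H914 Pool.Agent.H914.VarClass Pool.Agent.H914.VarClass.Obj
  Pool.Agent.H914.WeilCohomology Pool.Agent.H281R3.HT Pool.Agent.W552

variable {k : Type u} [Field k] {𝒱 : VarClass k} {ops : CycleOps 𝒱}
  {W : WeilCohomology.{u, v} ops} {X Y : 𝒱.Obj}

/-- The contraction. -/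
theorem push_ext {a : W.H X} (ha : AS W X a) (x : W.H X) (y : W.H Y) :
    W.push (snd X Y) (ext W x y * W.map (fst X Y) a) = W.tr X (x * a) • y := by
  rw [ext, mul_assoc, ← (ha.map (fst X Y)).comm, ← mul_assoc, ← map_mul, W.push_snd]

/-- A class in the span of the products with algebraic classes on `X` is a sum of products with the
members of a spanning family. -/
theorem mix_sum {n : ℕ} (e : Fin n → W.H X)
    (h1 : ∀ a, AS W X a → ∃ r : Fin n → W.K, a = ∑ k, r k • e k) {c : W.H (X.prod Y)}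
    (hc : c ∈ mixSpan W X Y) : ∃ y : Fin n → W.H Y, c = ∑ k, ext W (e k) (y k) := by
  refine Submodule.span_induction (p := fun c _ => ∃ y : Fin n → W.H Y,
    c = ∑ k, ext W (e k) (y k)) ?_ ?_ ?_ ?_ hc
  · rintro _ ⟨a, y, ha, rfl⟩
    obtain ⟨r, hr⟩ := h1 a ha
    refine ⟨fun k => r k • y, ?_⟩
    rw [hr, ext, map_sum, Finset.sum_mul]
    refine Finset.sum_congr rfl fun k _ => ?_
    rw [ext, map_smul, map_smul, smul_mul_assoc, mul_smul_comm]
  · exact ⟨0, by simp [ext]⟩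
  · rintro c d _ _ ⟨y, rfl⟩ ⟨z, rfl⟩
    refine ⟨y + z, ?_⟩
    rw [← Finset.sum_add_distrib]
    refine Finset.sum_congr rfl fun k _ => ?_
    rw [Pi.add_apply, ext, ext, ext, map_add, mul_add]
  · rintro t c _ ⟨y, rfl⟩
    refine ⟨t • y, ?_⟩
    rw [Finset.smul_sum]
    refine Finset.sum_congr rfl fun k _ => ?_
    rw [Pi.smul_apply, ext, ext, map_smul, mul_smul_comm]

section frames

variable {D : X.Cycles} {f : Module.End W.K (W.H X)} {E : Y.Cycles}
  {f' : Module.End W.K (W.H Y)}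

theorem bf_comm_AS (F : Fr W X D f)
    (ls : LefStr (W.isInternal X) X.dim (LinearMap.mulLeft W.K (W.cl X D)) f) {x y : W.H X}
    (hx : AS W X x) (hy : AS W X y) : bf W X D f x y = bf W X D f y x := by
  refine AS.ind (p := fun x => bf W X D f x y = bf W X D f y x) ?_ ?_ hx
  swap
  · intro a b ha hb
    rw [map_add, LinearMap.add_apply, ha, hb, map_add]
  intro i x hx
  refine AS.ind (p := fun y => bf W X D f x y = bf W X D f y x) ?_ ?_ hy
  swap
  · intro a b ha hb
    rw [map_add, ha, hb, map_add, LinearMap.add_apply]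
  intro j y hy
  have h1 := ls.form_symm (B := bil W X) (fun p q => RSys.bil_self F.hD p q)
    (fun i j a ha b hb hij => W.tr_eq_zero (W.mul_mem ha hb) hij)
    (fun i j a ha b hb => by
      rw [bil_apply, bil_apply, W.comm ha hb, map_smul, smul_eq_mul]) (alg_gr hy) (alg_gr hx)
  have h2 : (-1 : W.K) ^ (2 * j) = 1 := by rw [pow_mul]; simp
  rw [h2, one_mul] at h1
  exact h1

/-- **Positivity.** -/
theorem bf_pos_prod (F : Fr W X D f)
    (ls : LefStr (W.isInternal X) X.dim (LinearMap.mulLeft W.K (W.cl X D)) f)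
    (G : Fr W Y E f') (hX : HodgeType W X D) (hY : HodgeType W Y E) {x : W.H (X.prod Y)}
    (hx : AS W (X.prod Y) x) (hmix : x ∈ mixSpan W X Y) (hx0 : x ≠ 0) :
    ∃ q : ℚ, 0 < q ∧ bf W (X.prod Y) (ops.pull (fst X Y) D + ops.pull (snd X Y) E)
      (extSum W f f') x x = q := by
  obtain ⟨n, e, w, he, hw, horth, hspan⟩ := exists_ratBasis (AS.ratSub (W := W) (X := X))
    (bf W X D f) (fun x y hx hy => F.bf_rat hx hy) (fun x y hx hy => bf_comm_AS F ls hx hy)
    (fun x hx h0 => F.bf_pos hX hx h0)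
  have h1 : ∀ a, AS W X a → ∃ r : Fin n → W.K, a = ∑ k, r k • e k := by
    intro a ha
    obtain ⟨r, hr⟩ := hspan a (Submodule.subset_span ha) (fun k => F.bf_rat ha (he k))
    exact ⟨fun k => (r k : W.K), hr⟩
  obtain ⟨y, rfl⟩ := mix_sum e h1 hmix
  have hwK : ∀ k, (w k : W.K) ≠ 0 := fun k => by exact_mod_cast (hw k).ne'
  have hy : ∀ k, AS W Y (y k) := by
    intro k
    have h2 : AS W Y (W.push (snd X Y) ((∑ l, ext W (e l) (y l)) *
        W.map (fst X Y) (st W X D f (e k)))) :=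
      AS.push _ (hx.mul (AS.map _ (F.st_AS (he k))))
    have h3 : W.push (snd X Y) ((∑ l, ext W (e l) (y l)) *
        W.map (fst X Y) (st W X D f (e k))) = (w k : W.K) • y k := by
      rw [Finset.sum_mul, map_sum, Finset.sum_eq_single k]
      · rw [push_ext (F.st_AS (he k)), ← bf_apply, horth, if_pos rfl]
      · intro l _ hl
        rw [push_ext (F.st_AS (he k)), ← bf_apply, horth, if_neg hl, zero_smul]
      · intro h; exact absurd (Finset.mem_univ _) h
    rw [h3] at h2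
    have h4 := h2.smul ((w k)⁻¹)
    rw [smul_smul, ← Rat.cast_mul, inv_mul_cancel₀ (hw k).ne', Rat.cast_one, one_smul] at h4
    exact h4
  have hval : bf W (X.prod Y) (ops.pull (fst X Y) D + ops.pull (snd X Y) E)
      (extSum W f f') (∑ k, ext W (e k) (y k)) (∑ k, ext W (e k) (y k)) =
        ∑ k, (w k : W.K) * bf W Y E f' (y k) (y k) := by
    rw [map_sum (bf W (X.prod Y) _ _), LinearMap.sum_apply]
    refine Finset.sum_congr rfl fun k _ => ?_
    rw [map_sum, Finset.sum_eq_single k]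
    · rw [F.bf_ext G, horth, if_pos rfl]
    · intro l _ hl
      rw [F.bf_ext G, horth, if_neg (Ne.symm hl), zero_mul]
    · intro h; exact absurd (Finset.mem_univ _) h
  have hpos : ∀ k, ∃ q : ℚ, 0 ≤ q ∧ (y k ≠ 0 → 0 < q) ∧ bf W Y E f' (y k) (y k) = q := by
    intro k
    by_cases h0 : y k = 0
    · exact ⟨0, le_rfl, fun h => absurd h0 h, by rw [h0]; simp⟩
    · obtain ⟨q, hq, hq'⟩ := G.bf_pos hY (hy k) h0
      exact ⟨q, hq.le, fun _ => hq, hq'⟩
  choose q hq0 hq1 hq2 using hpos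
  refine ⟨∑ k, w k * q k, ?_, ?_⟩
  · have hex : ∃ k, y k ≠ 0 := by
      by_contra h0
      push Not at h0
      apply hx0
      refine Finset.sum_eq_zero fun k _ => ?_
      rw [h0 k, ext, map_zero, mul_zero]
    obtain ⟨k, hk⟩ := hex
    exact Finset.sum_pos' (fun k _ => mul_nonneg (hw k).le (hq0 k))
      ⟨k, Finset.mem_univ _, mul_pos (hw k) (hq1 k hk)⟩
  · rw [hval]
    push_cast
    refine Finset.sum_congr rfl fun k _ => ?_
    rw [hq2]

/-- The conjecture for the product implies the conjecture for the factors. -/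
theorem bf_pos_of_prod (F : Fr W X D f) (G : Fr W Y E f')
    (h2 : HodgeType W (X.prod Y) (ops.pull (fst X Y) D + ops.pull (snd X Y) E))
    {x : W.H X} {y : W.H Y} (hx : AS W X x) (hy : AS W Y y) (h0 : ext W x y ≠ 0) :
    ∃ q : ℚ, 0 < q ∧ bf W X D f x x * bf W Y E f' y y = q := by
  obtain ⟨s, hs, hs'⟩ := (F.prod G).bf_pos h2 (hx.ext hy) h0
  rw [F.bf_ext G] at hs'
  exact ⟨s, hs, hs'⟩

theorem tr_pt (hD : X.IsCyc 1 D)
    (hdeg : 0 < X.V.degCycle (divPow ops D X.dim X.V.fundCycle)) :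
    W.tr X (W.cl X (divPow ops D X.dim X.V.fundCycle)) ≠ 0 := by
  have hn := divPow_mem (ops := ops) hD X.dim X.V.fundCycle_mem
  rw [zero_add] at hn
  rw [W.tr_cl hn]
  exact_mod_cast hdeg.ne'

theorem ext_one_left_ne {a : W.H X} (ha : AS W X a) (htr : W.tr X a ≠ 0) {y : W.H Y} (hy : y ≠ 0) :
    ext W (1 : W.H X) y ≠ 0 := by
  intro h0
  have h1 := push_ext ha (1 : W.H X) y
  rw [h0, zero_mul, map_zero, one_mul] at h1
  rcases smul_eq_zero.1 h1.symm with h2 | h2
  · exact htr h2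
  · exact hy h2

theorem ext_one_right_ne {b : W.H Y} (htr : W.tr Y b ≠ 0) {x : W.H X}
    (hx : x ≠ 0) : ext W x (1 : W.H Y) ≠ 0 := by
  intro h0
  apply hx
  apply W.nondeg
  intro c
  have h1 : W.tr (X.prod Y) (ext W (x * c) b) = 0 := by
    have h2 : W.map (fst X Y) x = 0 := by
      rw [ext, map_one, mul_one] at h0
      exact h0
    rw [ext, map_mul (W.map (fst X Y)), h2, zero_mul, zero_mul, map_zero]
  rw [ext, W.tr_prod] at h1
  exact (mul_eq_zero.1 h1).resolve_right htr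

theorem hodge_left_of_prod (hD : X.IsCyc 1 D) (hE : Y.IsCyc 1 E)
    (hdX : 0 < X.V.degCycle (divPow ops D X.dim X.V.fundCycle))
    (hdY : 0 < Y.V.degCycle (divPow ops E Y.dim Y.V.fundCycle))
    (F : Fr W X D f) (G : Fr W Y E f')
    (h2 : HodgeType W (X.prod Y) (ops.pull (fst X Y) D + ops.pull (snd X Y) E)) :
    HodgeType W X D ∧ HodgeType W Y E := by
  have hbX := F.bf_one
  have hbY := G.bf_one
  set r : ℚ := (X.dim.factorial : ℚ)⁻¹ * X.V.degCycle (divPow ops D X.dim X.V.fundCycle) with hr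
  set s : ℚ := (Y.dim.factorial : ℚ)⁻¹ * Y.V.degCycle (divPow ops E Y.dim Y.V.fundCycle) with hs
  have hr0 : 0 < r := mul_pos (inv_pos.2 (by exact_mod_cast Nat.factorial_pos _)) hdX
  have hs0 : 0 < s := mul_pos (inv_pos.2 (by exact_mod_cast Nat.factorial_pos _)) hdY
  have hrK : (r : W.K) ≠ 0 := by exact_mod_cast hr0.ne'
  have hsK : (s : W.K) ≠ 0 := by exact_mod_cast hs0.ne'
  constructor
  · intro j hj z hz hprim hz0
    refine (F.hodge hz fun hz0 => ?_).1 hj hprim hz0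
    obtain ⟨t, ht, ht'⟩ := bf_pos_of_prod F G h2 (x := W.cl X z) (y := 1) (AS.of ⟨z, hz, rfl⟩)
      AS.one (ext_one_right_ne (tr_pt hE hdY) hz0)
    rw [hbY] at ht'
    refine ⟨t / s, div_pos ht hs0, ?_⟩
    rw [Rat.cast_div, eq_div_iff hsK]
    exact ht'
  · intro j hj z hz hprim hz0
    refine (G.hodge hz fun hz0 => ?_).1 hj hprim hz0
    have hn := divPow_mem (ops := ops) hD X.dim X.V.fundCycle_mem
    obtain ⟨t, ht, ht'⟩ := bf_pos_of_prod F G h2 (x := 1) (y := W.cl Y z) AS.one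
      (AS.of ⟨z, hz, rfl⟩) (ext_one_left_ne (AS.of ⟨_, hn, rfl⟩) (tr_pt hD hdX) hz0)
    rw [hbX, mul_comm] at ht'
    refine ⟨t / r, div_pos ht hr0, ?_⟩
    rw [Rat.cast_div, eq_div_iff hrK]
    exact ht'

/-- **The conjecture of Hodge type for the product.** -/
theorem hodge_prod (F : Fr W X D f)
    (ls : LefStr (W.isInternal X) X.dim (LinearMap.mulLeft W.K (W.cl X D)) f)
    (G : Fr W Y E f') (hX : HodgeType W X D) (hY : HodgeType W Y E)
    (hmix : ∀ j z, (X.prod Y).IsCyc j z → W.cl (X.prod Y) z ∈ mixSpan W X Y) :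
    HodgeType W (X.prod Y) (ops.pull (fst X Y) D + ops.pull (snd X Y) E) ∧
      HomEqNum W (X.prod Y) := by
  have key : ∀ j z, (X.prod Y).IsCyc j z → W.cl (X.prod Y) z ≠ 0 → ∃ q : ℚ, 0 < q ∧
      bf W (X.prod Y) (ops.pull (fst X Y) D + ops.pull (snd X Y) E)
      (extSum W f f') (W.cl _ z) (W.cl _ z) = q := fun j z hz hz0 =>
    bf_pos_prod F ls G hX hY (AS.of ⟨z, hz, rfl⟩) (hmix j z hz) hz0
  exact ⟨fun j hj z hz => ((F.prod G).hodge hz (key j z hz)).1 hj,
    fun j hj z hz => ((F.prod G).hodge hz (key j z hz)).2 hj⟩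

end frames

end Pool.Agent.W484.HS
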