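import Mathlib
import Pool.Agent.W484.HS.Pos

/-!
# Numerical equivalence on the product
-/

set_option autoImplicit false

open CategoryTheory AlgebraicGeometry

universe u v

namespace Pool.Agent.W484.HS

open Module Pool.Agent.H914 Pool.Agent.H914.VarClass Pool.Agent.H914.VarClass.Obj
  Pool.Agent.H914.WeilCohomology Pool.Agent.H281R3.HT Pool.Agent.W552 Pool.Agent.W484.AA

variable {k : Type u} [Field k] {𝒱 : VarClass k} {ops : CycleOps 𝒱}
  {W : WeilCohomology.{u, v} ops} {X Y : 𝒱.Obj}

/-- The conjecture `D` for sums of algebraic classes. -/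
theorem AS_zero_of_num (hD : HomEqNum W X) {v : W.H X} (hv : AS W X v)
    (h : ∀ w, AS W X w → W.tr X (v * w) = 0) : v = 0 := by
  rw [Fr.AS_sum hv]
  refine Finset.sum_eq_zero fun j hj => ?_
  have hj' : j ≤ X.dim := Nat.lt_succ_iff.1 (Finset.mem_range.1 hj)
  obtain ⟨z, hz, hzv⟩ := hv.proj j
  rw [← hzv]
  refine hD j hj' z hz fun w hw => ?_
  have hmem := ops.mul_mem hz hw
  rw [show j + (X.dim - j) = X.dim by omega] at hmem
  have h1 := h (W.cl X w) (AS.of ⟨w, hw, rfl⟩)
  rw [Fr.AS_sum hv, Finset.sum_mul, map_sum, Finset.sum_eq_single j, ← hzv, ← W.cl_mul,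
    W.tr_cl hmem] at h1
  · exact_mod_cast h1
  · intro i _ hij
    have h2 := W.mul_mem (proj_mem (W.isInternal X) (2 * i) v) (W.cl_mem hw)
    exact W.tr_eq_zero h2 (by omega)
  · intro h2
    exact absurd hj h2

/-- The conjecture `D` implies that the pairing is nondegenerate on the linear combinations of
algebraic classes. -/
theorem algSpan_nondeg (hD : HomEqNum W X) {y : W.H X} (hy : y ∈ algSpan W X)
    (h : ∀ w, AS W X w → W.tr X (y * w) = 0) : y = 0 := by
  classical
  obtain ⟨S, hSA, hSspan, hSli⟩ := exists_linearIndependent W.K {v | AS W X v}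
  have hfin : S.Finite := hSli.setFinite
  have := hfin.fintype
  have hSc : ∀ i : S, AS W X (i : W.H X) := fun i => hSA i.2
  choose g hg using fun i k : S => ((hSc i).mul (hSc k)).tr
  rw [algSpan_eq, ← hSspan] at hy
  have hy' : y ∈ Submodule.span W.K (Set.range (fun i : S => (i : W.H X))) := by
    rwa [Subtype.range_coe]
  rw [Submodule.mem_span_range_iff_exists_fun] at hy'
  obtain ⟨c, hc⟩ := hy'
  by_contra hy0
  have hc0 : c ≠ 0 := by
    rintro rfl
    apply hy0
    rw [← hc]
    simp
  set M : Matrix S S ℚ := Matrix.of fun i l => g i l with hM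
  have hker : Matrix.vecMul c (M.map (algebraMap ℚ W.K)) = 0 := by
    funext l
    rw [Matrix.vecMul, dotProduct]
    have h1 := h l (hSc l)
    rw [← hc, Finset.sum_mul, map_sum] at h1
    rw [Pi.zero_apply, ← h1]
    refine Finset.sum_congr rfl fun i _ => ?_
    rw [smul_mul_assoc, map_smul, hg, smul_eq_mul, Matrix.map_apply, hM, Matrix.of_apply,
      eq_ratCast]
  have hdet : (M.map (algebraMap ℚ W.K)).det = 0 :=
    Matrix.exists_vecMul_eq_zero_iff.1 ⟨c, hc0, hker⟩
  have hdet' : M.det = 0 := by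
    have h1 := RingHom.map_det (algebraMap ℚ W.K) M
    rw [RingHom.mapMatrix_apply, hdet] at h1
    exact (map_eq_zero _).1 h1
  obtain ⟨r, hr0, hr⟩ := Matrix.exists_vecMul_eq_zero_iff.2 hdet'
  have hv : AS W X (∑ i : S, (r i : W.K) • (i : W.H X)) :=
    AS.ratSub.sum Finset.univ fun i _ => AS.smul _ (hSc i)
  have hv1 : ∀ l : S, W.tr X ((∑ i : S, (r i : W.K) • (i : W.H X)) * (l : W.H X)) = 0 := by
    intro l
    have h1 := congrFun hr l
    rw [Matrix.vecMul, dotProduct, Pi.zero_apply] at h1
    rw [Finset.sum_mul, map_sum]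
    have h2 : ((∑ i, r i * M i l : ℚ) : W.K) = 0 := by rw [h1, Rat.cast_zero]
    rw [Rat.cast_sum] at h2
    rw [← h2]
    refine Finset.sum_congr rfl fun i _ => ?_
    rw [smul_mul_assoc, map_smul, hg, smul_eq_mul, Rat.cast_mul, hM, Matrix.of_apply]
  have hv2 : ∀ w, AS W X w → W.tr X ((∑ i : S, (r i : W.K) • (i : W.H X)) * w) = 0 := by
    intro w hw
    have h1 : Submodule.span W.K S ≤ LinearMap.ker ((W.tr X) ∘ₗ
        LinearMap.mulLeft W.K (∑ i : S, (r i : W.K) • (i : W.H X))) := by
      refine Submodule.span_le.2 ?_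
      intro l hl
      exact hv1 ⟨l, hl⟩
    have h2 : w ∈ Submodule.span W.K S := by
      rw [hSspan]
      exact Submodule.subset_span hw
    exact h1 h2
  have hv0 := AS_zero_of_num hD hv hv2
  apply hr0
  funext i
  have := Fintype.linearIndependent_iff.1 hSli (fun i => (r i : W.K)) hv0 i
  exact_mod_cast this

/-- **The conjecture `D` for the product.** -/
theorem homEqNum_prod (hX : HomEqNum W X) (hY : HomEqNum W Y)
    (hmix : ∀ j z, (X.prod Y).IsCyc j z → W.cl (X.prod Y) z ∈ mixSpan W X Y) :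
    HomEqNum W (X.prod Y) := by
  classical
  intro j hj z hz hnum
  -- the trace with all algebraic classes vanishes
  have hall : ∀ w, AS W (X.prod Y) w → W.tr (X.prod Y) (W.cl _ z * w) = 0 := by
    intro w hw
    refine AS.ind (p := fun w => W.tr (X.prod Y) (W.cl _ z * w) = 0) ?_ ?_ hw
    · rintro l _ ⟨w, hw, rfl⟩
      by_cases hl : l = (X.prod Y).dim - j
      · subst hl
        have hmem := ops.mul_mem hz hw
        rw [show j + ((X.prod Y).dim - j) = (X.prod Y).dim by omega] at hmem
        rw [← W.cl_mul, W.tr_cl hmem, hnum w hw, Rat.cast_zero]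
      · exact W.tr_eq_zero (W.mul_mem (W.cl_mem hz) (W.cl_mem hw)) (by omega)
    · intro a b ha hb
      rw [mul_add, map_add, ha, hb, add_zero]
  obtain ⟨S, hSA, hSspan, hSli⟩ := exists_linearIndependent W.K {v | AS W X v}
  have hfin : S.Finite := hSli.setFinite
  have := hfin.fintype
  let φ := Fintype.equivFin S
  let e : Fin (Fintype.card S) → W.H X := fun t => (φ.symm t : W.H X)
  have he : ∀ t, AS W X (e t) := fun t => hSA (φ.symm t).2
  have heli : LinearIndependent W.K e := hSli.comp _ φ.symm.injective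
  have hrange : Set.range e = S := by
    ext x
    constructor
    · rintro ⟨t, rfl⟩
      exact (φ.symm t).2
    · intro hx
      exact ⟨φ ⟨x, hx⟩, by simp [e]⟩
  have h1 : ∀ a, AS W X a → ∃ r : Fin (Fintype.card S) → W.K, a = ∑ k, r k • e k := by
    intro a ha
    have h2 : a ∈ Submodule.span W.K (Set.range e) := by
      rw [hrange, hSspan]
      exact Submodule.subset_span ha
    rw [Submodule.mem_span_range_iff_exists_fun] at h2
    obtain ⟨c, hc⟩ := h2
    exact ⟨c, hc.symm⟩
  obtain ⟨y, hy⟩ := mix_sum e h1 (hmix j z hz)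
  have hASx : AS W (X.prod Y) (W.cl _ z) := AS.of ⟨z, hz, rfl⟩
  -- contractions
  have hz' : ∀ l, ∑ t, W.tr X (e t * e l) • y t = 0 := by
    intro l
    have h3 : W.push (snd X Y) (W.cl _ z * W.map (fst X Y) (e l)) =
        ∑ t, W.tr X (e t * e l) • y t := by
      rw [hy, Finset.sum_mul, map_sum]
      exact Finset.sum_congr rfl fun t _ => push_ext (he l) _ _
    rw [← h3]
    refine AS_zero_of_num hY (AS.push _ (hASx.mul ((he l).map _))) fun w hw => ?_
    rw [W.tr_push, mul_assoc]
    exact hall _ (((he l).map _).mul (hw.map _))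
  have hyt : ∀ t, y t = 0 := by
    intro t
    rw [← Module.forall_dual_apply_eq_zero_iff W.K]
    intro ψ
    have h3 : ∀ l, W.tr X ((∑ t, ψ (y t) • e t) * e l) = 0 := by
      intro l
      have h4 := congrArg ψ (hz' l)
      rw [map_sum, map_zero] at h4
      rw [Finset.sum_mul, map_sum, ← h4]
      refine Finset.sum_congr rfl fun t _ => ?_
      rw [smul_mul_assoc, map_smul, map_smul, smul_eq_mul, smul_eq_mul, mul_comm]
    have h4 : (∑ t, ψ (y t) • e t) = 0 := by
      refine algSpan_nondeg hX (Submodule.sum_mem _ fun t _ => Submodule.smul_mem _ _ ?_) ?_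
      · rw [algSpan_eq]
        exact Submodule.subset_span (he t)
      · intro w hw
        obtain ⟨r, rfl⟩ := h1 w hw
        rw [Finset.mul_sum, map_sum]
        refine Finset.sum_eq_zero fun l _ => ?_
        rw [mul_smul_comm, map_smul, h3, smul_zero]
    exact Fintype.linearIndependent_iff.1 heli _ h4 t
  rw [hy]
  refine Finset.sum_eq_zero fun t _ => ?_
  rw [hyt t, ext, map_zero, mul_zero]

/-- The conjecture `D` for the product implies the conjecture for the factors. -/
theorem homEqNum_right {D : X.Cycles} (hD : X.IsCyc 1 D)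
    (hdeg : 0 < X.V.degCycle (divPow ops D X.dim X.V.fundCycle))
    (h : HomEqNum W (X.prod Y)) : HomEqNum W Y := by
  intro j hj z hz hnum
  have hn := divPow_mem (ops := ops) hD X.dim X.V.fundCycle_mem
  have hz2 : (X.prod Y).IsCyc j (ops.pull (snd X Y) z) := ops.pull_mem _ hz
  have hcl : W.cl (X.prod Y) (ops.pull (snd X Y) z) = ext W 1 (W.cl Y z) := by
    rw [W.cl_pull, ext, map_one, one_mul]
  have h0 : W.cl (X.prod Y) (ops.pull (snd X Y) z) = 0 := by
    refine h j (by rw [dim_prod]; omega) _ hz2 fun w hw => ?_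
    have hmem := ops.mul_mem hz2 hw
    rw [show j + ((X.prod Y).dim - j) = (X.prod Y).dim by rw [dim_prod]; omega] at hmem
    have h1 : ((( X.prod Y).V.degCycle (ops.mul (ops.pull (snd X Y) z) w) : ℚ) : W.K) = 0 := by
      rw [← W.tr_cl hmem, W.cl_mul, W.cl_pull]
      have h2 : W.map (snd X Y) (W.cl Y z) * W.cl (X.prod Y) w =
          W.cl (X.prod Y) w * W.map (snd X Y) (W.cl Y z) :=
        (AS.map _ (AS.of ⟨z, hz, rfl⟩)).comm _
      rw [h2, ← W.tr_push, ← W.cl_push]
      have hp : Y.IsCyc (Y.dim - j) (ops.push (snd X Y) w) :=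
        ops.push_mem _ hw (by rw [dim_prod]; omega)
      have h3 : W.cl Y (ops.push (snd X Y) w) * W.cl Y z =
          W.cl Y z * W.cl Y (ops.push (snd X Y) w) :=
        (AS.of (W := W) ⟨_, hp, rfl⟩).comm _
      have hmem2 := ops.mul_mem hz hp
      rw [show j + (Y.dim - j) = Y.dim by omega] at hmem2
      rw [h3, ← W.cl_mul, W.tr_cl hmem2, hnum _ hp, Rat.cast_zero]
    exact_mod_cast h1
  rw [hcl] at h0
  by_contra hne
  exact ext_one_left_ne (AS.of ⟨_, hn, rfl⟩) (tr_pt hD hdeg) hne h0

/-- The trace is compatible with the Frobenius endomorphism. -/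
theorem tr_iter (f : X ⟶ X) (Q : W.K) (N : ℕ) {p : W.H X} (hp : p ∈ W.gr X (2 * X.dim))
    (htr : W.tr X p ≠ 0) (hN : (W.map f)^[N] p = Q • p) (x : W.H X) :
    W.tr X ((W.map f)^[N] x) = Q * W.tr X x := by
  refine gr_induction (W.isInternal X) (p := fun x => W.tr X ((W.map f)^[N] x) = Q * W.tr X x)
    ?_ ?_ x
  swap
  · intro a b ha hb
    rw [iter_linear, map_add, ← iter_linear, ← iter_linear, map_add, map_add, ha, hb, mul_add]
  intro i a ha
  have hmem : ∀ N : ℕ, (W.map f)^[N] a ∈ W.gr X i := by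
    intro N
    induction N with
    | zero => exact ha
    | succ N ih =>
      rw [Function.iterate_succ_apply']
      exact W.map_mem _ ih
  by_cases hi : i = 2 * X.dim
  swap
  · rw [W.tr_eq_zero ha hi, W.tr_eq_zero (hmem N) hi, mul_zero]
  subst hi
  have h1 : a = (W.tr X a / W.tr X p) • p := by
    rw [← sub_eq_zero]
    apply W.nondeg
    intro b
    refine gr_induction (W.isInternal X) (p := fun b =>
      W.tr X ((a - (W.tr X a / W.tr X p) • p) * b) = 0) ?_ ?_ b
    · intro l b hb
      by_cases hl : l = 0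
      · subst hl
        rw [W.gr_zero, Submodule.mem_span_singleton] at hb
        obtain ⟨t, rfl⟩ := hb
        rw [mul_smul_comm, mul_one, map_smul, map_sub, map_smul, smul_eq_mul, smul_eq_mul,
          div_mul_cancel₀ _ htr, sub_self, mul_zero]
      · exact W.tr_eq_zero (W.mul_mem (Submodule.sub_mem _ ha (Submodule.smul_mem _ _ hp)) hb)
          (by omega)
    · intro b c hb hc
      rw [mul_add, map_add, hb, hc, add_zero]
  rw [h1, iter_linear, map_smul, ← iter_linear, hN, map_smul, map_smul, map_smul]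
  simp only [smul_eq_mul]
  ring

theorem iter_mul (f : X ⟶ X) (N : ℕ) (a b : W.H X) :
    (W.map f)^[N] (a * b) = (W.map f)^[N] a * (W.map f)^[N] b := by
  induction N with
  | zero => rfl
  | succ N ih =>
    rw [Function.iterate_succ_apply', ih, map_mul, ← Function.iterate_succ_apply' (W.map f),
      ← Function.iterate_succ_apply' (W.map f)]

theorem iter_scale (f : X ⟶ X) (c : W.K) (m N : ℕ) {a : W.H X} (h : (W.map f)^[m] a = c • a) :
    (W.map f)^[m * N] a = c ^ N • a := by
  induction N with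
  | zero => simp
  | succ N ih =>
    rw [mul_add, mul_one, Function.iterate_add_apply, h, iter_linear, map_smul, ← iter_linear, ih,
      smul_smul, pow_succ']

/-- **The conjecture `D` for varieties with cohomology generated in degree one and no exotic
relations.** -/
theorem homEqNum_gen (f : X ⟶ X) {Z : Type*}
    (val : Z → W.K) (q : ℕ) (hq : q ≠ 0) {D : X.Cycles} (hD : X.IsCyc 1 D)
    (hdeg : 0 < X.V.degCycle (divPow ops D X.dim X.V.fundCycle))
    (hF : FrobeniusOnCycles W X f q)
    (hgen : Algebra.adjoin W.K (W.gr X 1 : Set (W.H X)) = ⊤)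
    (heig : Submodule.span W.K {v : W.H X | v ∈ W.gr X 1 ∧ ∃ x, W.map f v = val x • v} = W.gr X 1)
    (hdiv : ∀ c ∈ W.gr X 2, W.map f c = (q : W.K) • c → c ∈ algSpan W X)
    (hpair : ExactPairK val (q : W.K) 1) : HomEqNum W X := by
  classical
  have hQ : (q : W.K) ≠ 0 := by exact_mod_cast hq
  intro i hi z hz hnum
  by_contra hz0
  obtain ⟨r, b, hb⟩ := exists_list_basis (W.map f) val (W.gr X 1) heig hgen
  -- a basis vector
  obtain ⟨t, ht⟩ : ∃ t, W.tr X (W.cl X z * b t) ≠ 0 := by
    by_contra hall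
    push Not at hall
    apply hz0
    apply W.nondeg
    intro c
    rw [← b.sum_repr c, Finset.mul_sum, map_sum]
    refine Finset.sum_eq_zero fun t _ => ?_
    rw [mul_smul_comm, map_smul, hall, smul_zero]
  obtain ⟨L, hL, hLb⟩ := hb t
  have hα := Pool.Agent.W484.HS.map_list_prod (W.map f) val L fun e he => (hL e he).2
  rw [← hLb] at hα
  set α := (L.map (fun e => val e.2)).prod with hαdef
  have hn := divPow_mem (ops := ops) hD X.dim X.V.fundCycle_mem
  obtain ⟨m, hm, hm'⟩ := hF i z hz
  obtain ⟨m', hm1, hm1'⟩ := hF _ _ hn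
  have hpull : ∀ (m : ℕ) (z : X.Cycles), W.cl X ((ops.pull f)^[m] z) =
      (W.map f)^[m] (W.cl X z) := by
    intro m
    induction m with
    | zero => intro z; rfl
    | succ m ih =>
      intro z
      rw [Function.iterate_succ_apply', Function.iterate_succ_apply', W.cl_pull, ih]
  rw [hpull] at hm' hm1'
  have h1 := iter_scale f _ m m' hm'
  have h2 := iter_scale f _ m' m hm1'
  rw [mul_comm m' m] at h2
  set N := m * m' with hN
  have hN0 : 0 < N := Nat.mul_pos hm hm1
  have hp : W.cl X (divPow ops D X.dim X.V.fundCycle) ∈ W.gr X (2 * X.dim) := by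
    have := W.cl_mem hn
    rwa [zero_add] at this
  have h3 := tr_iter f _ N hp (tr_pt hD hdeg) h2 (W.cl X z * b t)
  have h4 : (W.map f)^[N] (b t) = α ^ N • b t := by
    have := iter_scale f α 1 N (a := b t) (by simpa using hα)
    rwa [one_mul] at this
  rw [iter_mul, h1, h4, smul_mul_smul_comm, map_smul, smul_eq_mul] at h3
  have h5 := mul_right_cancel₀ ht h3
  have h6 : (α * 1) ^ N = ((q : W.K) ^ ((X.dim - i : ℕ) : ℤ)) ^ N := by
    rw [mul_one, zpow_natCast]
    have h7 : ((q : W.K) ^ i) ^ N ≠ 0 := pow_ne_zero _ (pow_ne_zero _ hQ)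
    apply mul_left_cancel₀ h7
    have h10 : ((q : W.K) ^ i) ^ N * ((q : W.K) ^ (X.dim - i)) ^ N = ((q : W.K) ^ X.dim) ^ N := by
      rw [← mul_pow, ← pow_add, show i + (X.dim - i) = X.dim by omega]
    have h8 : ((q : W.K) ^ i) ^ N = ((q : W.K) ^ (m * i)) ^ m' := by
      rw [hN, ← pow_mul, ← pow_mul]
      congr 1
      ring
    have h9 : ((q : W.K) ^ X.dim) ^ N = ((q : W.K) ^ (m' * (0 + X.dim))) ^ m := by
      rw [hN, ← pow_mul, ← pow_mul]
      congr 1
      ring
    rw [h10, h8, h9]
    exact h5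
  have hmem : b t ∈ algSpan W X := by
    rw [hLb]
    refine list_mem (W.map f) val (q : W.K) 1 hQ hpair (algSpan W X) one_mem_algSpan
      (fun a ha b hb => mul_mem_algSpan ha hb) (W.gr X 1 : Set (W.H X)) ?_ ?_ L.length
      _ N hN0 L rfl hL h6
    · intro a ha b hb
      rw [W.comm ha hb]
      simp
    · intro a ha b hb x y hx hy hxy
      refine hdiv _ (W.mul_mem ha hb) ?_
      rw [map_mul, hx, hy, smul_mul_smul_comm, hxy]
  -- all algebraic classes
  have hAS : ∀ w, AS W X w → W.tr X (W.cl X z * w) = 0 := by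
    intro w hw
    refine AS.ind (p := fun w => W.tr X (W.cl X z * w) = 0) ?_ ?_ hw
    · rintro l _ ⟨w, hw, rfl⟩
      by_cases hl : l = X.dim - i
      · subst hl
        have hmem := ops.mul_mem hz hw
        rw [show i + (X.dim - i) = X.dim by omega] at hmem
        rw [← W.cl_mul, W.tr_cl hmem, hnum w hw, Rat.cast_zero]
      · exact W.tr_eq_zero (W.mul_mem (W.cl_mem hz) (W.cl_mem hw)) (by omega)
    · intro a b ha hb
      rw [mul_add, map_add, ha, hb, add_zero]
  apply ht
  rw [algSpan_eq] at hmem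
  have h10 : Submodule.span W.K {x | AS W X x} ≤ LinearMap.ker ((W.tr X) ∘ₗ
      LinearMap.mulLeft W.K (W.cl X z)) := by
    refine Submodule.span_le.2 ?_
    intro w hw
    exact hAS w hw
  exact h10 hmem

end Pool.Agent.W484.HS
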