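import Mathlib
import Pool.Agent.W484.HS.Dn

/-!
# The conjectures for products with almost all abelian varieties
-/

set_option autoImplicit false

open CategoryTheory AlgebraicGeometry

universe u v

namespace Pool.Agent.W484.HS

open Module Polynomial Pool.Agent.H914 Pool.Agent.H914.VarClass Pool.Agent.H914.VarClass.Obj
  Pool.Agent.H914.WeilCohomology Pool.Agent.H281R3.HT Pool.Agent.W552 Pool.Agent.W484.AA
  Pool.Agent.W521.Frob Pool.Agent.W521.Count Pool.Agent.W521.Bad Pool.Agent.W521.Descent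
  Pool.Agent.W521.Density

variable {k : Type u} [Field k] {𝒱 : VarClass k}

/-- The conjecture of Hodge type for cycles modulo numerical equivalence: for `2 j ≤ n = dim X` and
every cycle `z` of codimension `j` which is not numerically trivial and is primitive, i.e. the
cycle `D ^ (n - 2 j + 1) z` is numerically trivial, the sign of the intersection number
`z · z · D ^ (n - 2 j)` is `(-1) ^ j`. -/
def NumHodge (ops : CycleOps 𝒱) (X : 𝒱.Obj) (D : X.Cycles) : Prop :=
  ∀ j, 2 * j ≤ X.dim → ∀ z, X.IsCyc j z →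
    (∀ p, p + 1 = j → ∀ w, X.IsCyc p w →
      X.V.degCycle (ops.mul (divPow ops D (X.dim - 2 * j + 1) z) w) = 0) →
    (∃ w, X.IsCyc (X.dim - j) w ∧ X.V.degCycle (ops.mul z w) ≠ 0) →
    0 < (-1 : ℚ) ^ j * X.V.degCycle (ops.mul z (divPow ops D (X.dim - 2 * j) z))

section gen

variable {K : Type*} [Field K] {R : Type*} [Ring R] [Algebra K R]

/-- The algebra `R` is generated by the subspace `U`. -/
def GeneratedBy (U : Submodule K R) : Prop := Algebra.adjoin K (U : Set R) = ⊤

/-- The subspace `U` is spanned by eigenvectors of `f` with eigenvalues `z ^ s`, `z` a root of some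
`F i`. -/
def SpannedByEigenvectors (f : R →ₐ[K] R) (U : Submodule K R) (s : ℕ) {I : Type} (F : I → ℤ[X]) :
    Prop :=
  Submodule.span K {c | c ∈ U ∧ ∃ i, ∃ z : K, aeval z (F i) = 0 ∧ f c = z ^ s • c} = U

/-- The eigenvectors of `f` in `U` with eigenvalue `Q` lie in `V`. -/
def EigenspaceLE (f : R →ₐ[K] R) (U : Submodule K R) (Q : K) (V : Submodule K R) : Prop :=
  ∀ c ∈ U, f c = Q • c → c ∈ V

/-- The eigenvalues of `f` are roots of a nonzero polynomial with integral coefficients all of whose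
roots in `ℂ` have powers which lie in a group generated by `q` and `r` numbers. -/
def SmallRank (f : R →ₐ[K] R) (q r : ℕ) : Prop :=
  ∃ χ : ℤ[X], χ ≠ 0 ∧ (∀ (ρ : K) (c : R), c ≠ 0 → f c = ρ • c → aeval ρ χ = 0) ∧
    RankLE q r {ρ : ℂ | aeval ρ χ = 0}

end gen

/-- `f` behaves like the Frobenius endomorphism, relative to the field with `q ^ s` elements, of an
abelian variety which is isogenous, over the field with `q` elements, to a product of powers of
abelian varieties with characteristic polynomials of Frobenius `F i`, polarized by `A.D`: the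
cohomology is generated by `H^1`, which is spanned by eigenvectors of Frobenius with eigenvalues
`z ^ s`, `z` a root of some `F i`; the Tate conjecture holds for divisors. -/
structure IsAbelianFrobenius {ops : CycleOps 𝒱} (W : WeilCohomology.{u, v} ops) (q s : ℕ)
    {I : Type} (F : I → ℤ[X]) (A : Polarized 𝒱) (f : A.X ⟶ A.X) : Prop where
  divisor : A.X.IsCyc 1 A.D
  degree : 0 < A.X.V.degCycle (divPow ops A.D A.X.dim A.X.V.fundCycle)
  generated : GeneratedBy (W.gr A.X 1)
  eigen : SpannedByEigenvectors (W.map f) (W.gr A.X 1) s F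
  tate : EigenspaceLE (W.map f) (W.gr A.X 2) ((q : W.K) ^ s) (algSpan W A.X)
  cycles : FrobeniusOnCycles W A.X f (q ^ s)

section num

variable {ops : CycleOps 𝒱} {W : WeilCohomology.{u, v} ops} {X Y : 𝒱.Obj}

theorem num_of_hodge {D : X.Cycles} (hD1 : X.IsCyc 1 D) (hD : HomEqNum W X)
    (h : HodgeType W X D) : NumHodge ops X D := by
  intro j hj z hz hprim hnt
  have hmem := divPow_mem (ops := ops) hD1 (X.dim - 2 * j + 1) hz
  refine h j hj z hz ?_ ?_
  · rcases Nat.eq_zero_or_pos j with rfl | hj0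
    · have h2 := W.cl_mem hmem
      rw [W.gr_eq_bot _ _ (by omega)] at h2
      exact (Submodule.mem_bot _).1 h2
    · refine hD _ (by omega) _ hmem fun w hw => ?_
      exact hprim (j - 1) (by omega) w (by
        rwa [show X.dim - (j + (X.dim - 2 * j + 1)) = j - 1 by omega] at hw)
  · intro h0
    obtain ⟨w, hw, hw'⟩ := hnt
    apply hw'
    have h1 := ops.mul_mem hz hw
    rw [show j + (X.dim - j) = X.dim by omega] at h1
    have h2 : ((X.V.degCycle (ops.mul z w) : ℚ) : W.K) = 0 := by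
      rw [← W.tr_cl h1, W.cl_mul, h0, zero_mul, map_zero]
    exact_mod_cast h2

theorem hodge_of_num {D : X.Cycles} (hD1 : X.IsCyc 1 D) (hD : HomEqNum W X)
    (h : NumHodge ops X D) : HodgeType W X D := by
  intro j hj z hz hprim hz0
  have hmem := divPow_mem (ops := ops) hD1 (X.dim - 2 * j + 1) hz
  refine h j hj z hz ?_ ?_
  · intro p hp w hw
    have h1 := ops.mul_mem hmem hw
    rw [show j + (X.dim - 2 * j + 1) + p = X.dim by omega] at h1
    have h2 : ((X.V.degCycle (ops.mul (divPow ops D (X.dim - 2 * j + 1) z) w) : ℚ) : W.K) = 0 := by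
      rw [← W.tr_cl h1, W.cl_mul, hprim, zero_mul, map_zero]
    exact_mod_cast h2
  · by_contra hall
    push Not at hall
    exact hz0 (hD j (by omega) z hz hall)

end num

section good

variable {ops : CycleOps 𝒱} {W : WeilCohomology.{u, v} ops} {Y : 𝒱.Obj}

theorem eigen_span {q s : ℕ} {I : Type} {F : I → ℤ[X]} {A : Polarized 𝒱} {f : A.X ⟶ A.X}
    (h : IsAbelianFrobenius W q s F A f) :
    Submodule.span W.K {v : W.H A.X | v ∈ W.gr A.X 1 ∧
      ∃ z : {z : W.K // ∃ i, aeval z (F i) = 0}, W.map f v = ((z : W.K) ^ s) • v} =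
        W.gr A.X 1 := by
  refine Eq.trans (congrArg _ ?_) (show Submodule.span W.K {c | c ∈ W.gr A.X 1 ∧ ∃ i, ∃ z : W.K,
    aeval z (F i) = 0 ∧ W.map f c = z ^ s • c} = W.gr A.X 1 from h.eigen)
  ext v
  constructor
  · rintro ⟨h1, ⟨z, i, hz⟩, h2⟩
    exact ⟨h1, i, z, hz, h2⟩
  · rintro ⟨h1, i, z, hz, h2⟩
    exact ⟨h1, ⟨z, i, hz⟩, h2⟩

theorem root_of_eigen {f : Y ⟶ Y} {χ : ℤ[X]}
    (hχ : ∀ (ρ : W.K) (c : W.H Y), c ≠ 0 → W.map f c = ρ • c → aeval ρ χ = 0) {ρ : W.K}
    (hρ : Module.End.HasEigenvalue (W.map f).toLinearMap ρ) :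
    aeval ρ (χ.map (Int.castRingHom ℚ)) = 0 := by
  obtain ⟨v, hv⟩ := hρ.exists_hasEigenvector
  have h1 := hχ ρ v hv.2 hv.apply_eq_smul
  change aeval ρ (χ.map (algebraMap ℤ ℚ)) = 0
  rw [aeval_map_algebraMap]
  exact h1

theorem rank_one (q r : ℕ) : RankLE q r {ρ : ℂ | aeval ρ (X - 1 : ℚ[X]) = 0} := by
  refine ⟨fun _ => 1, fun _ => one_ne_zero, fun ρ hρ => ⟨1, 0, 0, one_pos, ?_⟩⟩
  have h1 : ρ - 1 = 0 := by simpa using hρ
  rw [sub_eq_zero.1 h1]
  simp

variable {I : Type} [Finite I] (g : I → ℕ) {q : ℕ} (hq : q ≠ 0) (r : ℕ) (hr : ∀ i, r < g i)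
  (x : (Σ i, Fin (g i)) → ℤ) (hx : Pool.Agent.W521.Bad.Good g q x)

include hq hr hx

/-- The algebraic classes on the product. -/
theorem alg_mem_mix [IsAlgClosed W.K] {s : ℕ} (hs : 0 < s) {A : Polarized 𝒱}
    {f : A.X ⟶ A.X}
    (hA : IsAbelianFrobenius W q s (fun i => weil q (polys g x i)) A f) {f' : Y ⟶ Y}
    (hY : SmallRank (W.map f') q r)
    (hF : FrobeniusOnCycles W (A.X.prod Y) (pairMap f f') (q ^ s)) (i : ℕ) (z) 
    (hz : (A.X.prod Y).IsCyc i z) : W.cl (A.X.prod Y) z ∈ mixSpan W A.X Y := by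
  obtain ⟨χ₀, hχ₀, hχ0, hrank₀⟩ := hY
  set χ : ℚ[X] := χ₀.map (Int.castRingHom ℚ) with hχdef
  have hχ : χ ≠ 0 := (Polynomial.map_ne_zero_iff (RingHom.injective_int _)).2 hχ₀
  have hrank : RankLE q r {ρ : ℂ | aeval ρ χ = 0} := by
    convert hrank₀ using 3
    change aeval _ (χ₀.map (algebraMap ℤ ℚ)) = 0 ↔ _
    rw [aeval_map_algebraMap]
  obtain ⟨m, hm, hm'⟩ := hF i z hz
  have hpull : ∀ (m : ℕ) (z : (A.X.prod Y).Cycles), W.cl _ ((ops.pull (pairMap f f'))^[m] z) =
      (W.map (pairMap f f'))^[m] (W.cl _ z) := by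
    intro m
    induction m with
    | zero => intro z; rfl
    | succ m ih =>
      intro z
      rw [Function.iterate_succ_apply', Function.iterate_succ_apply', W.cl_pull, ih]
  rw [hpull] at hm'
  have hQ : (q : W.K) ^ s ≠ 0 := pow_ne_zero _ (by exact_mod_cast hq)
  refine mem_mixSpan (Z := {z : W.K // ∃ i, aeval z (weil q (polys g x i)) = 0}) f f'
    (fun z => (z : W.K) ^ s) ((q : W.K) ^ s) hQ hA.generated (eigen_span hA) hA.tate ?_ m i hm _ ?_
  · intro ρ hρ
    exact exactPair_field g hq r hr x hx s hs χ hχ hrank ρ (root_of_eigen hχ0 hρ)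
  · rw [hm']
    congr 1
    push_cast
    rw [← pow_mul, mul_comm m i]
    ring

/-- The conjecture `D` for the abelian variety. -/
theorem homEqNum_abelian {s : ℕ} (hs : 0 < s) {A : Polarized 𝒱}
    {f : A.X ⟶ A.X}
    (hA : IsAbelianFrobenius W q s (fun i => weil q (polys g x i)) A f) : HomEqNum W A.X := by
  refine homEqNum_gen (Z := {z : W.K // ∃ i, aeval z (weil q (polys g x i)) = 0}) f
    (fun z => (z : W.K) ^ s) (q ^ s) (pow_ne_zero _ hq) hA.divisor hA.degree hA.cycles
    hA.generated (eigen_span hA) ?_ ?_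
  · intro c hc hc'
    refine hA.tate c hc ?_
    rw [hc']
    push_cast
    rfl
  · have h1 := exactPair_field g hq r hr x hx s hs (X - 1 : ℚ[X]) (Polynomial.X_sub_C_ne_zero 1)
      (rank_one q r) (1 : W.K) (by simp)
    push_cast
    exact h1

end good

end Pool.Agent.W484.HS
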