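import Mathlib
import Pool.Agent.W484.HS.Num

/-!
# The conjectures for products of almost all abelian varieties with varieties of small rank
-/

set_option autoImplicit false

open CategoryTheory AlgebraicGeometry

universe u v

namespace Pool.Agent.W484.HS

open Module Polynomial Pool.Agent.H914 Pool.Agent.H914.VarClass Pool.Agent.H914.VarClass.Obj
  Pool.Agent.H914.WeilCohomology Pool.Agent.H281R3.HT Pool.Agent.W552 Pool.Agent.W484.AA
  Pool.Agent.W521.Frob Pool.Agent.W521.Count Pool.Agent.W521.Bad Pool.Agent.W521.Descent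
  Pool.Agent.W521.Density

/-- Homological and numerical equivalence for products with varieties of small rank: for every
algebraically closed field, every class of smooth projective varieties over it closed under
products, every Weil cohomology with algebraically closed coefficient field, every `A` with a
Frobenius endomorphism `f` of type `F` relative to the field with `q ^ s` elements, and every `Y`
with a Frobenius endomorphism `f'` relative to the same field of rank at most `r`: homological and
numerical equivalence coincide on `A`, and they coincide on `A × Y` if and only if they coincide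
on `Y`. -/
def NumForSmallRank (q r : ℕ) {I : Type} (F : I → ℤ[X]) : Prop :=
  ∀ (k : Type u) [Field k] [IsAlgClosed k] (𝒱 : VarClass k) (ops : CycleOps 𝒱)
    (W : WeilCohomology.{u, v} ops) [IsAlgClosed W.K] (s : ℕ), 0 < s →
    ∀ (A : Polarized 𝒱) (Y : 𝒱.Obj) (f : A.X ⟶ A.X) (f' : Y ⟶ Y),
      IsAbelianFrobenius W q s F A f → SmallRank (W.map f') q r →
      FrobeniusOnCycles W (A.X.prod Y) (pairMap f f') (q ^ s) →
      HomEqNum W A.X ∧ (HomEqNum W (A.X.prod Y) ↔ HomEqNum W Y)

/-- The polarization has positive degree, the hard Lefschetz theorem holds for it, and the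
operator `Λ` attached to it is algebraic. -/
structure IsLefschetz {k : Type u} [Field k] {𝒱 : VarClass k} {ops : CycleOps 𝒱}
    (W : WeilCohomology.{u, v} ops) (Y : Polarized 𝒱) : Prop where
  divisor : Y.X.IsCyc 1 Y.D
  degree : 0 < Y.X.V.degCycle (divPow ops Y.D Y.X.dim Y.X.V.fundCycle)
  hardLefschetz : HardLefschetz W Y.X Y.D
  lefschetzB : LefschetzB W Y.X Y.D

/-- The conjecture of Hodge type for products with varieties of small rank: for `A` and `Y` as in
`NumForSmallRank`, polarized such that the Lefschetz theorem and the conjecture `B` hold, and such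
that homological and numerical equivalence coincide on `Y`: they coincide on `A × Y`, and the
conjecture of Hodge type for numerical equivalence holds for `A × Y` if and only if it holds for
`A` and for `Y`. -/
def HodgeForSmallRank (q r : ℕ) {I : Type} (F : I → ℤ[X]) : Prop :=
  ∀ (k : Type u) [Field k] [IsAlgClosed k] (𝒱 : VarClass k) (ops : CycleOps 𝒱)
    (W : WeilCohomology.{u, v} ops) [IsAlgClosed W.K] (s : ℕ), 0 < s →
    ∀ (A Y : Polarized 𝒱) (f : A.X ⟶ A.X) (f' : Y.X ⟶ Y.X),
      IsAbelianFrobenius W q s F A f → IsLefschetz W A → IsLefschetz W Y → HomEqNum W Y.X →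
      SmallRank (W.map f') q r → FrobeniusOnCycles W (A.X.prod Y.X) (pairMap f f') (q ^ s) →
      HomEqNum W (A.X.prod Y.X) ∧
      (NumHodge ops (A.prod ops Y).X (A.prod ops Y).D ↔
        NumHodge ops A.X A.D ∧ NumHodge ops Y.X Y.D)

variable {I : Type} [Finite I] (g : I → ℕ) {q : ℕ} (hq : q ≠ 0) (r : ℕ) (hr : ∀ i, r < g i)
  (x : (Σ i, Fin (g i)) → ℤ) (hx : Pool.Agent.W521.Bad.Good g q x)

include hq hr hx

theorem numForSmallRank_of_good :
    NumForSmallRank.{u, v} q r (fun i => weil q (polys g x i)) := by
  intro k _ _ 𝒱 ops W _ s hs A Y f f' hA hY hF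
  have hAD := homEqNum_abelian g hq r hr x hx hs hA
  refine ⟨hAD, fun h => homEqNum_right hA.divisor hA.degree h, fun h => ?_⟩
  exact homEqNum_prod hAD h (alg_mem_mix g hq r hr x hx hs hA hY hF)

theorem hodgeForSmallRank_of_good :
    HodgeForSmallRank.{u, v} q r (fun i => weil q (polys g x i)) := by
  intro k _ _ 𝒱 ops W _ s hs A Y f f' hA hLA hLY hYD hY hF
  have hAD := homEqNum_abelian g hq r hr x hx hs hA
  have hmix := alg_mem_mix g hq r hr x hx hs hA hY hF
  have hprod := homEqNum_prod hAD hYD hmix
  obtain ⟨F, hF1, ls⟩ := exists_fr hLA.divisor hLA.hardLefschetz hLA.lefschetzB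
  obtain ⟨G, hG1, _⟩ := exists_fr hLY.divisor hLY.hardLefschetz hLY.lefschetzB
  have hD : (A.X.prod Y.X).IsCyc 1 (A.prod ops Y).D :=
    SmVar.IsCyc.add (ops.pull_mem _ hLA.divisor) (ops.pull_mem _ hLY.divisor)
  refine ⟨hprod, fun h => ?_, fun h => ?_⟩
  · obtain ⟨h1, h2⟩ := hodge_left_of_prod hLA.divisor hLY.divisor hLA.degree hLY.degree hF1 hG1
      (hodge_of_num hD hprod h)
    exact ⟨num_of_hodge hLA.divisor hAD h1, num_of_hodge hLY.divisor hYD h2⟩
  · exact num_of_hodge hD hprod (hodge_prod hF1 ls hG1 (hodge_of_num hLA.divisor hAD h.1)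
      (hodge_of_num hLY.divisor hYD h.2) hmix).1

end Pool.Agent.W484.HS
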